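import Pool.Agent.H295R2.Mol.Defs

/-!
Test functions isolating the integer `m` (task 0c of the mollification project of helper295).
-/

set_option autoImplicit false

open MeasureTheory Filter Topology Set
open scoped ENNReal FourierTransform

namespace Pool.Agent.H267R2.MolTest

noncomputable section

/-- The two-sided Laplace transform. -/
def Lap (f : ℝ → ℂ) (z : ℂ) : ℂ := ∫ u : ℝ, f u * Complex.exp (z * u)

/-- Smooth functions supported in `[-1,1]`. -/
structure Tf (f : ℝ → ℂ) : Prop where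
  smooth : ContDiff ℝ (⊤ : ℕ∞) f
  supp : tsupport f ⊆ Icc (-1) 1

theorem Tf.cs {f : ℝ → ℂ} (hf : Tf f) : HasCompactSupport f :=
  HasCompactSupport.of_support_subset_isCompact isCompact_Icc
    ((subset_tsupport f).trans hf.supp)

theorem Tf.deriv {f : ℝ → ℂ} (hf : Tf f) : Tf (deriv f) := by
  refine ⟨?_, ?_⟩
  · have h := hf.smooth
    rw [show ((⊤ : ℕ∞) : WithTop ℕ∞) = ((⊤ : ℕ∞) : WithTop ℕ∞) + 1 from rfl] at h
    exact (contDiff_succ_iff_deriv.mp h).2.2
  · exact (closure_minimal (support_deriv_subset) (isClosed_tsupport f)).trans hf.supp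

theorem Tf.zero {f : ℝ → ℂ} (hf : Tf f) {x : ℝ} (hx : 1 < |x|) : f x = 0 := by
  apply image_eq_zero_of_notMem_tsupport
  intro h
  have := hf.supp h
  rw [mem_Icc, ← abs_le] at this
  linarith

theorem Tf.int {f : ℝ → ℂ} (hf : Tf f) {g : ℝ → ℂ} (hg : Continuous g) :
    Integrable (fun u => f u * g u) :=
  (hf.smooth.continuous.mul hg).integrable_of_hasCompactSupport hf.cs.mul_right

theorem cexp_cont (z : ℂ) : Continuous (fun u : ℝ => Complex.exp (z * u)) := by fun_prop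

theorem Lap_bound {f : ℝ → ℂ} (hf : Tf f) (z : ℂ) :
    ‖Lap f z‖ ≤ Real.exp |z.re| * ∫ u : ℝ, ‖f u‖ := by
  unfold Lap
  rw [← integral_const_mul]
  refine norm_integral_le_of_norm_le ?_ (Eventually.of_forall fun u => ?_)
  · exact ((hf.smooth.continuous.integrable_of_hasCompactSupport hf.cs).norm).const_mul _
  · rw [norm_mul, Complex.norm_exp, mul_comm]
    by_cases hu : 1 < |u|
    · rw [hf.zero hu]; simp
    · refine mul_le_mul_of_nonneg_right (Real.exp_le_exp.mpr ?_) (norm_nonneg _)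
      push Not at hu
      have h1 : (z * (u:ℂ)).re = z.re * u := by simp
      rw [h1]
      calc z.re * u ≤ |z.re * u| := le_abs_self _
        _ = |z.re| * |u| := abs_mul _ _
        _ ≤ |z.re| * 1 := mul_le_mul_of_nonneg_left hu (abs_nonneg _)
        _ = |z.re| := mul_one _

theorem Lap_deriv {f : ℝ → ℂ} (hf : Tf f) (z : ℂ) :
    Lap (deriv f) z = - (z * Lap f z) := by
  have h := integral_mul_deriv_eq_deriv_mul_of_integrable (A := ℂ) (u := f) (u' := deriv f)
    (v := fun u : ℝ => Complex.exp (z * u)) (v' := fun u : ℝ => Complex.exp (z * u) * z)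
    (fun x _ => (hf.smooth.differentiable (by simp)).differentiableAt.hasDerivAt)
    (fun x _ => by
      have h1 : HasDerivAt (fun u : ℝ => z * (u:ℂ)) z x := by
        simpa using (Complex.ofRealCLM.hasDerivAt (x := x)).const_mul z
      exact h1.cexp)
    (by
      have := hf.int (g := fun u : ℝ => Complex.exp (z * u) * z) (by fun_prop)
      exact this)
    (hf.deriv.int (cexp_cont z)) (hf.int (cexp_cont z))
  unfold Lap
  have h2 : ∫ u : ℝ, deriv f u * Complex.exp (z * u) = - ∫ u : ℝ, f u * (Complex.exp (z * u) * z) := by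
    rw [h, neg_neg]
  rw [h2, ← integral_const_mul]
  congr 2
  ext u
  ring

theorem Lap_decay_nat (J : ℕ) : ∀ {f : ℝ → ℂ} (_ : Tf f) (R : ℝ), ∃ C : ℝ, 0 ≤ C ∧ ∀ z : ℂ,
    |z.re| ≤ R → (1 + |z.im|) ^ J * ‖Lap f z‖ ≤ C := by
  induction J with
  | zero =>
    intro f hf R
    refine ⟨Real.exp R * ∫ u : ℝ, ‖f u‖, by positivity, ?_⟩
    intro z hz
    rw [pow_zero, one_mul]
    refine (Lap_bound hf z).trans (mul_le_mul_of_nonneg_right (Real.exp_le_exp.mpr hz) ?_)
    positivity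
  | succ J ih =>
    intro f hf R
    obtain ⟨C1, hC1, h1⟩ := ih hf R
    obtain ⟨C2, hC2, h2⟩ := ih hf.deriv R
    refine ⟨C1 + C2, by positivity, ?_⟩
    intro z hz
    have h3 := h1 z hz
    have h4 := h2 z hz
    rw [Lap_deriv hf, norm_neg, norm_mul] at h4
    have h5 : |z.im| ≤ ‖z‖ := Complex.abs_im_le_norm z
    have h6 : (1 + |z.im|) ^ J * (|z.im| * ‖Lap f z‖) ≤ (1 + |z.im|) ^ J * (‖z‖ * ‖Lap f z‖) := by
      gcongr
    calc (1 + |z.im|) ^ (J + 1) * ‖Lap f z‖
        = (1 + |z.im|) ^ J * ‖Lap f z‖ + (1 + |z.im|) ^ J * (|z.im| * ‖Lap f z‖) := by ring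
      _ ≤ C1 + C2 := add_le_add h3 (h6.trans h4)

theorem Lap_decay {f : ℝ → ℂ} (hf : Tf f) (R J : ℝ) : ∃ C : ℝ, 0 < C ∧ ∀ z : ℂ,
    |z.re| ≤ R → ‖Lap f z‖ ≤ C * (1 + |z.im|) ^ (-J) := by
  obtain ⟨C, hC, h⟩ := Lap_decay_nat ⌈J⌉₊ hf R
  refine ⟨C + 1, by linarith, ?_⟩
  intro z hz
  have h1 := h z hz
  have hp : (0:ℝ) < 1 + |z.im| := by positivity
  have h2 : ‖Lap f z‖ ≤ C * (1 + |z.im|) ^ (-(⌈J⌉₊ : ℝ)) := by
    rw [Real.rpow_neg hp.le, Real.rpow_natCast, ← div_eq_mul_inv, le_div_iff₀ (by positivity)]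
    linarith
  refine h2.trans ?_
  have h3 : (1 + |z.im|) ^ (-(⌈J⌉₊ : ℝ)) ≤ (1 + |z.im|) ^ (-J) :=
    Real.rpow_le_rpow_of_exponent_le (by linarith [abs_nonneg z.im]) (neg_le_neg (Nat.le_ceil J))
  calc C * (1 + |z.im|) ^ (-(⌈J⌉₊ : ℝ)) ≤ C * (1 + |z.im|) ^ (-J) :=
        mul_le_mul_of_nonneg_left h3 hC
    _ ≤ (C + 1) * (1 + |z.im|) ^ (-J) := by
        apply mul_le_mul_of_nonneg_right (by linarith)
        positivity

theorem Lap_diff {f : ℝ → ℂ} (hf : Tf f) : Differentiable ℂ (Lap f) := by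
  intro z0
  have h := hasDerivAt_integral_of_dominated_loc_of_deriv_le (μ := (volume : Measure ℝ))
    (F := fun (z : ℂ) (u : ℝ) => f u * Complex.exp (z * u))
    (F' := fun (z : ℂ) (u : ℝ) => f u * (Complex.exp (z * u) * u)) (x₀ := z0)
    (s := Metric.ball z0 1) (bound := fun u => ‖f u‖ * Real.exp (‖z0‖ + 1))
    (Metric.ball_mem_nhds z0 one_pos)
    (Eventually.of_forall fun z => (hf.int (cexp_cont z)).aestronglyMeasurable)
    (hf.int (cexp_cont z0))
    (hf.int (g := fun u : ℝ => Complex.exp (z0 * u) * u) (by fun_prop)).aestronglyMeasurable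
    (Eventually.of_forall fun u z hz => by
      by_cases hu : 1 < |u|
      · simp [hf.zero hu]
      · push Not at hu
        rw [norm_mul, norm_mul, Complex.norm_exp, Complex.norm_real, Real.norm_eq_abs]
        refine mul_le_mul_of_nonneg_left ?_ (norm_nonneg _)
        have h1 : (z * (u:ℂ)).re = z.re * u := by simp
        rw [h1]
        have h2 : ‖z‖ ≤ ‖z0‖ + 1 := by
          have h3 : ‖z - z0‖ < 1 := by rwa [← dist_eq_norm]
          have h4 := norm_add_le (z - z0) z0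
          rw [sub_add_cancel] at h4
          linarith
        calc Real.exp (z.re * u) * |u| ≤ Real.exp (z.re * u) * 1 :=
              mul_le_mul_of_nonneg_left hu (Real.exp_pos _).le
          _ = Real.exp (z.re * u) := mul_one _
          _ ≤ Real.exp (‖z0‖ + 1) := by
              apply Real.exp_le_exp.mpr
              calc z.re * u ≤ |z.re * u| := le_abs_self _
                _ = |z.re| * |u| := abs_mul _ _
                _ ≤ ‖z‖ * 1 := mul_le_mul (Complex.abs_re_le_norm z) hu (abs_nonneg _)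
                    (norm_nonneg _)
                _ ≤ ‖z0‖ + 1 := by linarith)
    (((hf.smooth.continuous.integrable_of_hasCompactSupport hf.cs).norm).mul_const _)
    (Eventually.of_forall fun u z _ => by
      have h1 : HasDerivAt (fun z : ℂ => z * (u:ℂ)) (u:ℂ) z := by
        simpa using (hasDerivAt_id z).mul_const (u:ℂ)
      exact (h1.cexp).const_mul (f u))
  exact h.2.differentiableAt

/-- Integrability on vertical lines. -/
theorem Lap_integrable {f : ℝ → ℂ} (hf : Tf f) (c : ℝ) :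
    Integrable (fun t : ℝ => Lap f (c + t * Complex.I)) := by
  obtain ⟨C, hC, h⟩ := Lap_decay hf |c| 2
  have h1 : Integrable (fun t : ℝ => C * (1 + ‖t‖) ^ (-(2:ℝ))) := by
    apply Integrable.const_mul
    apply integrable_one_add_norm
    simp
  refine h1.mono' ?_ (Eventually.of_forall fun t => ?_)
  · exact ((Lap_diff hf).continuous.comp (by fun_prop)).aestronglyMeasurable
  · have h2 := h (c + t * Complex.I) (by simp)
    simpa using h2

theorem Lap_inv {f : ℝ → ℂ} (hf : Tf f) (c y : ℝ) :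
    ∫ t : ℝ, Complex.exp (-((c + t * Complex.I) * y)) * Lap f (c + t * Complex.I) =
      2 * Real.pi * f y := by
  set g : ℝ → ℂ := fun x => f x * Complex.exp (c * x) with hg
  have hF : ∀ ξ : ℝ, 𝓕 g ξ = Lap f (c + ((-(2 * Real.pi) * ξ : ℝ) : ℂ) * Complex.I) := by
    intro ξ
    rw [Real.fourier_real_eq_integral_exp_smul]
    unfold Lap
    congr 1
    ext u
    rw [smul_eq_mul, hg]
    simp only
    rw [mul_comm, mul_assoc, ← Complex.exp_add]
    congr 2
    push_cast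
    ring
  have hgc : Continuous g := hf.smooth.continuous.mul (by fun_prop)
  have hgi : Integrable g := hf.int (by fun_prop)
  have hFi : Integrable (𝓕 g) := by
    have h1 := (Lap_integrable hf c).comp_mul_left' (R := -(2 * Real.pi))
      (by have := Real.pi_pos; intro h; linarith)
    refine h1.congr (Eventually.of_forall fun ξ => ?_)
    exact (hF ξ).symm
  have hinv := congrFun (hgc.fourierInv_fourier_eq hgi hFi) y
  rw [Real.fourierInv_eq'] at hinv
  have h2 : (∫ v : ℝ, Complex.exp (((2 * Real.pi * inner ℝ v y : ℝ) : ℂ) * Complex.I) • 𝓕 g v) =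
      ∫ v : ℝ, (fun t : ℝ => Complex.exp (-(t * Complex.I * y)) * Lap f (c + t * Complex.I))
        ((-(2 * Real.pi)) * v) := by
    congr 1
    ext v
    rw [hF, smul_eq_mul]
    congr 2
    simp
    ring
  rw [h2, Measure.integral_comp_mul_left (fun t : ℝ => Complex.exp (-(t * Complex.I * y)) *
    Lap f (c + t * Complex.I)) (-(2 * Real.pi))] at hinv
  have h3 : |(-(2 * Real.pi))⁻¹| = (2 * Real.pi)⁻¹ := by
    rw [inv_neg, abs_neg, abs_of_pos (by positivity)]
  rw [h3] at hinv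
  have h4 : (∫ t : ℝ, Complex.exp (-(t * Complex.I * y)) * Lap f (c + t * Complex.I)) =
      2 * Real.pi * g y := by
    rw [← hinv, Complex.real_smul]
    push_cast
    have := Real.pi_ne_zero
    have h5 : (2 * Real.pi : ℂ) ≠ 0 := mul_ne_zero two_ne_zero (by exact_mod_cast this)
    rw [← mul_assoc, mul_inv_cancel₀ h5, one_mul]
  have h6 : (∫ t : ℝ, Complex.exp (-((c + t * Complex.I) * y)) * Lap f (c + t * Complex.I)) =
      Complex.exp (-(c * y)) *
        ∫ t : ℝ, Complex.exp (-(t * Complex.I * y)) * Lap f (c + t * Complex.I) := by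
    rw [← integral_const_mul]
    congr 1
    ext t
    rw [← mul_assoc, ← Complex.exp_add]
    congr 2
    ring
  rw [h6, h4, hg]
  simp only
  have h7 : Complex.exp (-(c * y)) * Complex.exp (c * y) = 1 := by
    rw [← Complex.exp_add]; simp
  calc Complex.exp (-(↑c * ↑y)) * (2 * ↑Real.pi * (f y * Complex.exp (↑c * ↑y)))
      = (Complex.exp (-(c * y)) * Complex.exp (c * y)) * (2 * Real.pi * f y) := by ring
    _ = _ := by rw [h7, one_mul]

/-- The bump function. -/
theorem exists_bump : ∃ β : ℝ → ℂ, Tf β ∧ β 0 = 1 ∧ ∀ x : ℝ, 1 ≤ |x| → β x = 0 := by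
  let b : ContDiffBump (0:ℝ) := ⟨1/2, 1, by norm_num, by norm_num⟩
  refine ⟨fun x => ((b x : ℝ) : ℂ), ⟨?_, ?_⟩, ?_, ?_⟩
  · exact Complex.ofRealCLM.contDiff.comp b.contDiff
  · have h1 : Function.support (fun x => ((b x : ℝ) : ℂ)) ⊆ Icc (-1) 1 := by
      intro x hx
      rw [mem_Icc, ← abs_le]
      by_contra hcon
      push Not at hcon
      apply hx
      have : b x = 0 := b.zero_of_le_dist (by
        change (1:ℝ) ≤ dist x 0
        rw [Real.dist_eq, sub_zero]; exact hcon.le)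
      simp [this]
    exact closure_minimal h1 isClosed_Icc
  · have : b 0 = 1 := b.one_of_mem_closedBall (Metric.mem_closedBall_self b.rIn_pos.le)
    simp [this]
  · intro x hx
    have : b x = 0 := b.zero_of_le_dist (by
      change (1:ℝ) ≤ dist x 0
      rw [Real.dist_eq, sub_zero]; exact hx)
    simp [this]

/-- Separation of logarithms. -/
theorem log_sep {k m : ℕ} (hk : 1 ≤ k) (hm : 1 ≤ m) (h : k ≠ m) :
    1 ≤ |2 * (m:ℝ) * (Real.log k - Real.log m)| := by
  have hk0 : (0:ℝ) < k := by exact_mod_cast hk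
  have hm0 : (0:ℝ) < m := by exact_mod_cast hm
  have hm1 : (1:ℝ) ≤ m := by exact_mod_cast hm
  rw [← Real.log_div hk0.ne' hm0.ne', abs_mul, abs_of_pos (by positivity : (0:ℝ) < 2 * m)]
  rcases lt_or_gt_of_ne h with h1 | h1
  · -- `k < m`
    have h2 : (k:ℝ) + 1 ≤ m := by exact_mod_cast h1
    have h3 : Real.log (k / m) ≤ k / m - 1 := Real.log_le_sub_one_of_pos (by positivity)
    have h4 : (k:ℝ) / m - 1 ≤ - (1 / m) := by
      rw [div_sub_one hm0.ne', neg_eq_neg_one_mul, mul_one_div]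
      exact div_le_div_of_nonneg_right (by linarith) hm0.le
    have h5 : 1 / (m:ℝ) ≤ |Real.log (k / m)| := by
      rw [abs_of_nonpos (by have : (0:ℝ) < 1 / m := by positivity
                            linarith)]
      linarith
    calc (1:ℝ) ≤ 2 * m * (1 / m) := by field_simp; norm_num
      _ ≤ _ := mul_le_mul_of_nonneg_left h5 (by positivity)
  · have h2 : (m:ℝ) + 1 ≤ k := by exact_mod_cast h1
    have h3 : Real.log (m / k) ≤ m / k - 1 := Real.log_le_sub_one_of_pos (by positivity)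
    have h4 : Real.log (k / m) = - Real.log (m / k) := by
      rw [← Real.log_inv, inv_div]
    have h6 : (m:ℝ) / k ≤ m / (m + 1) := div_le_div_of_nonneg_left hm0.le (by linarith) h2
    have h7 : (m:ℝ) / (m + 1) = 1 - 1 / (m + 1) := by field_simp; ring
    have h8 : 1 / (2 * (m:ℝ)) ≤ 1 / (m + 1) :=
      one_div_le_one_div_of_le (by positivity) (by linarith)
    have h5 : 1 / (2 * (m:ℝ)) ≤ |Real.log (k / m)| := by
      refine le_trans ?_ (le_abs_self _)
      rw [h4]
      linarith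
    calc (1:ℝ) = 2 * m * (1 / (2 * m)) := by field_simp
      _ ≤ _ := mul_le_mul_of_nonneg_left h5 (by positivity)

theorem scale_le {m : ℕ} (hm : 1 ≤ m) {J : ℝ} (hJ : 0 ≤ J) (t : ℝ) :
    (1 + |t / (2 * m)|) ^ (-J) ≤ (2 * (m:ℝ)) ^ J * (1 + |t|) ^ (-J) := by
  have hm1 : (1:ℝ) ≤ m := by exact_mod_cast hm
  have hp1 : (0:ℝ) < 1 + |t / (2 * m)| := by positivity
  have hp2 : (0:ℝ) < 1 + |t| := by positivity
  rw [Real.rpow_neg hp1.le, Real.rpow_neg hp2.le, ← div_eq_mul_inv, inv_eq_one_div,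
    div_le_div_iff₀ (Real.rpow_pos_of_pos hp1 _) (Real.rpow_pos_of_pos hp2 _), one_mul,
    ← Real.mul_rpow (by positivity) hp1.le]
  apply Real.rpow_le_rpow hp2.le _ hJ
  rw [mul_add, abs_div, abs_of_pos (by positivity : (0:ℝ) < 2 * m)]
  have : 2 * (m:ℝ) * (|t| / (2 * m)) = |t| := by field_simp
  rw [this]
  linarith

theorem one_add_rpow_le {t J : ℝ} : (1 + |t|) ^ (-(max J 0)) ≤ (1 + |t|) ^ (-J) :=
  Real.rpow_le_rpow_of_exponent_le (by linarith [abs_nonneg t]) (neg_le_neg (le_max_left _ _))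

theorem cpow_eq {k : ℕ} (hk : 1 ≤ k) (s : ℂ) :
    (k:ℂ) ^ (-s) = Complex.exp (-(s * (Real.log k : ℝ))) := by
  rw [Complex.cpow_def_of_ne_zero (by exact_mod_cast (by omega : k ≠ 0)), Complex.natCast_log]
  congr 1
  ring

/-- The test function. -/
def Phi (β : ℝ → ℂ) (m : ℕ) (s : ℂ) : ℂ :=
  (((4 * Real.pi * m)⁻¹ : ℝ) : ℂ) * (Complex.exp (s * (Real.log m : ℝ)) * Lap β (s / (2 * m)))

theorem Phi_bound {β : ℝ → ℂ} (_ : Tf β) {m : ℕ} (hm : 1 ≤ m) {R J C : ℝ}
    (hC : ∀ z : ℂ, |z.re| ≤ R → ‖Lap β z‖ ≤ C * (1 + |z.im|) ^ (-(max J 0))) (hC0 : 0 < C)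
    {s : ℂ} (hs : |s.re| ≤ R) :
    ‖Phi β m s‖ ≤ (m:ℝ) ^ R * (C * ((2 * (m:ℝ)) ^ (max J 0) * (1 + |s.im|) ^ (-J))) := by
  have hm1 : (1:ℝ) ≤ m := by exact_mod_cast hm
  have hre : (s / (2 * m)).re = s.re / (2 * m) := by
    have : (2 * (m:ℂ)) = ((2 * m : ℝ) : ℂ) := by push_cast; ring
    rw [this, Complex.div_ofReal_re]
  have him : (s / (2 * m)).im = s.im / (2 * m) := by
    have : (2 * (m:ℂ)) = ((2 * m : ℝ) : ℂ) := by push_cast; ring
    rw [this, Complex.div_ofReal_im]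
  have h1 : |(s / (2 * (m:ℂ))).re| ≤ R := by
    rw [hre, abs_div, abs_of_pos (by positivity : (0:ℝ) < 2 * m)]
    refine le_trans ?_ hs
    exact div_le_self (abs_nonneg _) (by linarith)
  have h2 := hC _ h1
  rw [him] at h2
  have h3 : ‖Complex.exp (s * (Real.log m : ℝ))‖ ≤ (m:ℝ) ^ R := by
    rw [Complex.norm_exp, Complex.re_mul_ofReal, Real.rpow_def_of_pos (by linarith)]
    apply Real.exp_le_exp.mpr
    rw [mul_comm]
    exact mul_le_mul_of_nonneg_left ((le_abs_self _).trans hs) (Real.log_nonneg hm1)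
  have h4 : ‖(((4 * Real.pi * m)⁻¹ : ℝ) : ℂ)‖ ≤ 1 := by
    rw [Complex.norm_real, Real.norm_of_nonneg (by positivity)]
    apply inv_le_one_of_one_le₀
    nlinarith [Real.pi_gt_three]
  unfold Phi
  rw [norm_mul, norm_mul]
  calc _ ≤ 1 * ((m:ℝ) ^ R * (C * (1 + |s.im / (2 * m)|) ^ (-(max J 0)))) := by
        gcongr
    _ ≤ _ := by
        rw [one_mul]
        have h5 : (1 + |s.im / (2 * m)|) ^ (-(max J 0)) ≤
            (2 * (m:ℝ)) ^ (max J 0) * (1 + |s.im|) ^ (-J) :=
          (scale_le hm (le_max_right _ _) _).trans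
            (mul_le_mul_of_nonneg_left one_add_rpow_le (by positivity))
        gcongr

theorem Phi_integral {β : ℝ → ℂ} (hβ : Tf β) (h1 : β 0 = 1) (h0 : ∀ x : ℝ, 1 ≤ |x| → β x = 0)
    {m : ℕ} (hm : 1 ≤ m) (c : ℝ) {k : ℕ} (hk : 1 ≤ k) :
    ∫ t : ℝ, (k : ℂ) ^ (-((c : ℂ) + t * Complex.I)) * Phi β m (c + t * Complex.I) =
      if k = m then 1 else 0 := by
  have hm0 : (0:ℝ) < m := by exact_mod_cast hm
  set y : ℝ := 2 * m * (Real.log k - Real.log m) with hy
  have h2 := Lap_inv hβ (c / (2 * m)) y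
  have h3 := Measure.integral_comp_mul_left (fun t : ℝ =>
    Complex.exp (-((((c / (2 * m) : ℝ) : ℂ) + t * Complex.I) * y)) *
      Lap β (((c / (2 * m) : ℝ) : ℂ) + t * Complex.I)) ((2 * (m:ℝ))⁻¹)
  rw [h2, inv_inv, abs_of_pos (by positivity : (0:ℝ) < 2 * m)] at h3
  have h4 : ∀ t : ℝ, (k : ℂ) ^ (-((c : ℂ) + t * Complex.I)) * Phi β m (c + t * Complex.I) =
      (((4 * Real.pi * m)⁻¹ : ℝ) : ℂ) * (fun t : ℝ =>
        Complex.exp (-((((c / (2 * m) : ℝ) : ℂ) + t * Complex.I) * y)) *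
        Lap β (((c / (2 * m) : ℝ) : ℂ) + t * Complex.I)) ((2 * (m:ℝ))⁻¹ * t) := by
    intro t
    have hmc : (m:ℂ) ≠ 0 := by exact_mod_cast hm0.ne'
    have e1 : ((c : ℂ) + t * Complex.I) / (2 * m) = ((c / (2 * m) : ℝ) : ℂ) +
        (((2 * (m:ℝ))⁻¹ * t : ℝ) : ℂ) * Complex.I := by
      push_cast
      field_simp
    have e2 : Complex.exp (-((((c / (2 * m) : ℝ) : ℂ) +
        (((2 * (m:ℝ))⁻¹ * t : ℝ) : ℂ) * Complex.I) * y)) =
        Complex.exp (-(((c : ℂ) + t * Complex.I) * (Real.log k : ℝ))) *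
        Complex.exp (((c : ℂ) + t * Complex.I) * (Real.log m : ℝ)) := by
      rw [← e1, ← Complex.exp_add, hy]
      congr 1
      push_cast
      field_simp
      ring
    rw [cpow_eq hk, Phi, e1]
    simp only
    rw [e2]
    ring
  simp only [h4]
  rw [integral_const_mul, h3]
  have h5 : β y = if k = m then 1 else 0 := by
    split_ifs with h
    · rw [hy, h, sub_self, mul_zero, h1]
    · exact h0 y (log_sep hk hm h)
  rw [← h5, Complex.real_smul]
  push_cast
  have hpi : (Real.pi : ℂ) ≠ 0 := by exact_mod_cast Real.pi_ne_zero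
  have hmc : (m:ℂ) ≠ 0 := by exact_mod_cast hm0.ne'
  field_simp
  norm_num

/-- T0c. -/
theorem test : Pool.Agent.H295R2.Mol.Test := by
  intro σ K
  obtain ⟨β, hβ, hβ1, hβ0⟩ := exists_bump
  obtain ⟨C0, hC0, hdec⟩ := Lap_decay hβ |σ| (max K 0)
  refine ⟨C0 * 2 ^ (max K 0), |σ| + max K 0 + 1, by positivity, by positivity, ?_⟩
  intro m hm
  have hm1 : (1:ℝ) ≤ m := by exact_mod_cast hm
  refine ⟨Phi β m, ?_, ?_, ?_, ?_⟩
  · unfold Phi
    have h1 := Lap_diff hβ
    have h2 : Differentiable ℂ (fun s : ℂ => Lap β (s / (2 * m))) := h1.comp (by fun_prop)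
    exact (Differentiable.mul (by fun_prop) h2).const_mul _
  · intro a b J
    obtain ⟨C1, hC1, h1⟩ := Lap_decay hβ (max |a| |b|) (max J 0)
    refine ⟨(m:ℝ) ^ (max |a| |b|) * (C1 * (2 * (m:ℝ)) ^ (max J 0)), ?_⟩
    intro s hs1 hs2
    have h2 : |s.re| ≤ max |a| |b| := abs_le_max_abs_abs hs1 hs2
    refine (Phi_bound hβ hm (J := J) h1 hC1 h2).trans (le_of_eq ?_)
    ring
  · intro c k hk
    exact Phi_integral hβ hβ1 hβ0 hm c hk
  · intro t
    have h2 := Phi_bound hβ hm (J := K) hdec hC0 (s := σ + t * Complex.I) (by simp)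
    refine h2.trans ?_
    have h3 : ((σ:ℂ) + t * Complex.I).im = t := by simp
    rw [h3, Real.mul_rpow (by norm_num) (by positivity)]
    have h4 : (m:ℝ) ^ |σ| * (m:ℝ) ^ (max K 0) ≤ (m:ℝ) ^ (|σ| + max K 0 + 1) := by
      rw [← Real.rpow_add (by linarith)]
      exact Real.rpow_le_rpow_of_exponent_le hm1 (by linarith)
    calc (m:ℝ) ^ |σ| * (C0 * (2 ^ (max K 0) * (m:ℝ) ^ (max K 0) * (1 + |t|) ^ (-K)))
        = (C0 * 2 ^ (max K 0)) * ((m:ℝ) ^ |σ| * (m:ℝ) ^ (max K 0)) * (1 + |t|) ^ (-K) := by ring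
      _ ≤ _ := by gcongr

end

end Pool.Agent.H267R2.MolTest
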